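import Mathlib
import Pool.Agent.Lib.ATLine.Functional

/-!
# The de Almeida-Thouless line of the Sherrington-Kirkpatrick model
-/

namespace Pool.Agent.Results.MP_aa848e_pr.ATLine

open Pool.Agent.ATLine

/-- For every inverse temperature `β > 0` and every external field `h`, the Parisi measure is
concentrated on one point if and only if the de Almeida-Thouless condition holds. -/
theorem result : ∀ β h : ℝ, 0 < β → (HighTemperature β h ↔ DATCondition β h) :=
  fun _ h hβ => highTemperature_iff_dAT hβ h

end Pool.Agent.Results.MP_aa848e_pr.ATLine
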